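import Mathlib

/-!
Hausdorff content, null sets of Hausdorff measure through covers, the mass distribution principle
and the null form of the inequality of Eilenberg.
-/

namespace Pool.Agent.Lib.MP_823829_an.GM

open MeasureTheory Set Metric Filter Topology
open scoped ENNReal NNReal

variable {X Y : Type*}

/-- Hausdorff content. -/
noncomputable def cont [EMetricSpace X] {s : ℝ} (hs : 0 < s) : OuterMeasure X :=
  OuterMeasure.ofFunction (fun t => ediam t ^ s) (by simp [hs])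

theorem cont_le [EMetricSpace X] {s : ℝ} (hs : 0 < s) (A : Set X) : cont hs A ≤ ediam A ^ s :=
  OuterMeasure.ofFunction_le _

theorem cont_le_tsum [EMetricSpace X] {s : ℝ} (hs : 0 < s) {ι : Type*} [Countable ι] {A : Set X}
    (t : ι → Set X) (h : A ⊆ ⋃ i, t i) : cont hs A ≤ ∑' i, ediam (t i) ^ s :=
  (measure_mono h).trans ((measure_iUnion_le t).trans (ENNReal.tsum_le_tsum fun _ => cont_le hs _))

variable [EMetricSpace X] [MeasurableSpace X] [BorelSpace X]

/-- A null set has covers of arbitrarily small cost. -/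
theorem exists_cover {s : ℝ} (hs : 0 < s) {A : Set X} (h : μH[s] A = 0) {ε : ℝ≥0∞} (hε : 0 < ε) :
    ∃ t : ℕ → Set X, A ⊆ ⋃ n, t n ∧ (∀ n, ediam (t n) ≤ ε) ∧ ∑' n, ediam (t n) ^ s < ε := by
  rw [Measure.hausdorffMeasure_apply] at h
  have h1 := (ENNReal.iSup_eq_zero.1 ((ENNReal.iSup_eq_zero.1 h) ε)) hε
  have h2 := h1.trans_lt hε
  simp only [iInf_lt_iff] at h2
  obtain ⟨t, ht, hd, hl⟩ := h2
  refine ⟨t, ht, hd, lt_of_le_of_lt (ENNReal.tsum_le_tsum fun n => ?_) hl⟩
  rcases (t n).eq_empty_or_nonempty with h0 | h0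
  · simp [h0, hs]
  · simp [h0]

theorem null_of_covers {s : ℝ} (hs : 0 < s) {A : Set X}
    (h : ∀ ε : ℝ≥0∞, 0 < ε → ∃ t : ℕ → Set X, A ⊆ ⋃ n, t n ∧ ∑' n, ediam (t n) ^ s ≤ ε) :
    μH[s] A = 0 := by
  have hp : ∀ n : ℕ, (0 : ℝ≥0∞) < (((n + 1 : ℕ) : ℝ≥0∞)⁻¹) ^ s := fun n =>
    ENNReal.rpow_pos (by simp) (by simp)
  choose t ht hl using fun n => h _ (hp n)
  have hr : Tendsto (fun n : ℕ => ((n + 1 : ℕ) : ℝ≥0∞)⁻¹) atTop (𝓝 0) :=
    ENNReal.tendsto_inv_nat_nhds_zero.comp (tendsto_add_atTop_nat 1)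
  have h1 := Measure.hausdorffMeasure_le_liminf_tsum s A _ hr t
    (Eventually.of_forall fun n i => by
      have := (ENNReal.le_tsum (f := fun i => ediam (t n i) ^ s) i).trans (hl n)
      exact (ENNReal.rpow_le_rpow_iff hs).1 this) (Eventually.of_forall ht)
  have h2 : Tendsto (fun n : ℕ => (((n + 1 : ℕ) : ℝ≥0∞)⁻¹) ^ s) atTop (𝓝 0) := by
    have := ((ENNReal.continuous_rpow_const (y := s)).tendsto 0).comp hr
    simpa [hs, Function.comp_def] using this
  have h3 : Tendsto (fun n => ∑' i, ediam (t n i) ^ s) atTop (𝓝 0) :=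
    tendsto_of_tendsto_of_tendsto_of_le_of_le tendsto_const_nhds h2 (fun _ => zero_le) hl
  rw [h3.liminf_eq] at h1
  exact le_antisymm h1 zero_le

theorem null_of_cont {s : ℝ} (hs : 0 < s) {A : Set X} (h : cont hs A = 0) : μH[s] A = 0 := by
  refine null_of_covers hs fun ε hε => ?_
  have h2 := h.trans_lt hε
  rw [cont, OuterMeasure.ofFunction_apply] at h2
  simp only [iInf_lt_iff] at h2
  obtain ⟨t, ht, hl⟩ := h2
  exact ⟨t, ht, hl.le⟩

theorem null_mono_exp {a b : ℝ} (hab : a ≤ b) {A : Set X} (h : μH[a] A = 0) : μH[b] A = 0 :=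
  le_antisymm ((Measure.hausdorffMeasure_mono hab A).trans h.le) zero_le

end Pool.Agent.Lib.MP_823829_an.GM

namespace Pool.Agent.Lib.MP_823829_an.GM

open MeasureTheory Set Metric Filter Topology
open scoped ENNReal NNReal

variable {X Y : Type*}

/-- The measure of every ball of radius `r` is at most `C r ^ s`. -/
def Fro [PseudoMetricSpace X] [MeasurableSpace X] (s : ℝ) (C : ℝ≥0∞) (ν : Measure X) : Prop :=
  ∀ x r, 0 < r → ν (closedBall x r) ≤ C * ENNReal.ofReal r ^ s

theorem Fro.mono [PseudoMetricSpace X] [MeasurableSpace X] {s : ℝ} {C : ℝ≥0∞} {ν ν' : Measure X}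
    (h : Fro s C ν) (hle : ν' ≤ ν) : Fro s C ν' := fun x r hr => (hle _).trans (h x r hr)

theorem Fro.restrict [PseudoMetricSpace X] [MeasurableSpace X] {s : ℝ} {C : ℝ≥0∞}
    {ν : Measure X} (h : Fro s C ν) (S : Set X) : Fro s C (ν.restrict S) :=
  h.mono Measure.restrict_le_self

theorem Fro.le_ediam [PseudoMetricSpace X] [MeasurableSpace X] {s : ℝ} {C : ℝ≥0∞}
    {ν : Measure X} (h : Fro s C ν) (hC : C ≠ ∞) (hs : 0 < s) {t : Set X} (ht : ediam t ≠ ∞) :
    ν t ≤ C * ediam t ^ s := by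
  rcases t.eq_empty_or_nonempty with rfl | ⟨x, hx⟩
  · simp
  have hb : Bornology.IsBounded t := isBounded_iff_ediam_ne_top.2 ht
  have h1 : ∀ r, diam t < r → ν t ≤ C * ENNReal.ofReal r ^ s := fun r hr =>
    (measure_mono fun y hy => mem_closedBall.2 ((dist_le_diam_of_mem hb hy hx).trans hr.le)).trans
      (h x r (diam_nonneg.trans_lt hr))
  have h2 : Tendsto (fun r : ℝ => C * ENNReal.ofReal r ^ s) (𝓝[>] (diam t))
      (𝓝 (C * ENNReal.ofReal (diam t) ^ s)) := by
    refine ENNReal.Tendsto.const_mul ?_ (Or.inr hC)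
    exact (((ENNReal.continuous_rpow_const (y := s)).comp
      ENNReal.continuous_ofReal).tendsto _).mono_left nhdsWithin_le_nhds
  have h3 := ge_of_tendsto h2 (eventually_nhdsWithin_of_forall fun r hr => h1 r hr)
  rwa [diam, ENNReal.ofReal_toReal ht] at h3

/-- Lebesgue measure satisfies the ball bound with the dimension as exponent. -/
theorem fro_haar {E : Type*} [NormedAddCommGroup E] [NormedSpace ℝ E] [FiniteDimensional ℝ E]
    [MeasurableSpace E] [BorelSpace E] (μ : Measure E) [μ.IsAddHaarMeasure] :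
    Fro (Module.finrank ℝ E : ℝ) (μ (closedBall 0 1)) μ := fun x r hr => by
  rw [Measure.addHaar_closedBall' μ x hr.le, mul_comm, ENNReal.rpow_natCast,
    ENNReal.ofReal_pow hr.le]

/-- A finite measure with the ball bound for an exponent has it for every smaller exponent. -/
theorem Fro.exp_le [PseudoMetricSpace X] [MeasurableSpace X] {s t : ℝ} {C : ℝ≥0∞}
    {ν : Measure X} (h : Fro t C ν) (hs : 0 ≤ s) (hst : s ≤ t) : Fro s (C + ν univ) ν := by
  intro x r hr
  rcases le_total r 1 with h1 | h1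
  · refine (h x r hr).trans ?_
    exact mul_le_mul' le_self_add
      (ENNReal.rpow_le_rpow_of_exponent_ge (by simpa using h1) hst)
  · refine (measure_mono (subset_univ _)).trans ?_
    calc ν univ = ν univ * 1 := (mul_one _).symm
      _ ≤ _ := mul_le_mul' le_add_self (by
          simpa using ENNReal.rpow_le_rpow (show 1 ≤ ENNReal.ofReal r by simpa using h1) hs)

variable [MetricSpace X] [MeasurableSpace X] [BorelSpace X]

/-- The mass distribution principle. -/
theorem Fro.null {s : ℝ} {C : ℝ≥0∞} {ν : Measure X} (h : Fro s C ν) (hC : C ≠ ∞) (hs : 0 < s)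
    {A : Set X} (hA : μH[s] A = 0) : ν A = 0 := by
  refine le_antisymm (ENNReal.le_of_forall_pos_le_add fun ε hε _ => ?_) zero_le
  have h0 : (0 : ℝ≥0∞) < min 1 (ε / (C + 1)) :=
    lt_min one_pos (ENNReal.div_pos (by simpa using hε.ne') (by simpa using hC))
  obtain ⟨t, ht, hd, hl⟩ := exists_cover hs hA h0
  calc ν A ≤ ∑' n, ν (t n) := (measure_mono ht).trans (measure_iUnion_le t)
    _ ≤ ∑' n, C * ediam (t n) ^ s := ENNReal.tsum_le_tsum fun n =>
        h.le_ediam hC hs (ne_top_of_le_ne_top (by simp) (hd n))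
    _ ≤ (C + 1) * (ε / (C + 1)) := by
        rw [ENNReal.tsum_mul_left]
        exact mul_le_mul' le_self_add (hl.le.trans (min_le_right _ _))
    _ ≤ 0 + ε := by simpa using ENNReal.mul_div_le

/-- The null form of the inequality of Eilenberg. -/
theorem eilenberg [MetricSpace Y] [MeasurableSpace Y] [BorelSpace Y] {a s : ℝ} (ha : 0 < a)
    (hs : 0 < s) {M : Set X} {f : X → Y} {L : ℝ≥0} (hf : LipschitzOnWith L f M)
    (hM : μH[a + s] M = 0) {C : ℝ≥0∞} {ν : Measure Y} (h : Fro s C ν) (hC : C ≠ ∞) :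
    ∀ᵐ z ∂ν, μH[a] (M ∩ f ⁻¹' {z}) = 0 := by
  have hp : ∀ j : ℕ, (0 : ℝ≥0∞) < 2⁻¹ ^ j := fun j => ENNReal.pow_pos (by simp) j
  choose t ht hd hl using fun j => exists_cover (add_pos ha hs) hM (hp j)
  let S : ℕ → ℕ → Set Y := fun j i => closure (f '' (t j i ∩ M))
  have hfin : ∀ j i, ediam (t j i) ≠ ∞ := fun j i =>
    ne_top_of_le_ne_top (ENNReal.pow_ne_top (by simp)) (hd j i)
  have hS : ∀ j i, ediam (S j i) ≤ L * ediam (t j i) := fun j i => by
    simp only [S, ediam_closure]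
    refine ediam_image_le_iff.2 fun x hx y hy => (hf hx.2 hy.2).trans ?_
    exact mul_le_mul' le_rfl (edist_le_ediam_of_mem hx.1 hy.1)
  let φ : ℕ → Y → ℝ≥0∞ := fun j z => ∑' i, (S j i).indicator (fun _ => ediam (t j i) ^ a) z
  have hm : ∀ j i, Measurable ((S j i).indicator fun _ : Y => ediam (t j i) ^ a) := fun j i =>
    measurable_const.indicator isClosed_closure.measurableSet
  have hφ : ∀ j, ∫⁻ z, φ j z ∂ν ≤ C * (L : ℝ≥0∞) ^ s * 2⁻¹ ^ j := fun j => by
    rw [lintegral_tsum fun i => (hm j i).aemeasurable]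
    refine le_trans (ENNReal.tsum_le_tsum fun i => ?_)
      ((ENNReal.tsum_mul_left (a := C * (L : ℝ≥0∞) ^ s)).le.trans (mul_le_mul' le_rfl (hl j).le))
    rw [lintegral_indicator_const isClosed_closure.measurableSet]
    have h1 := h.le_ediam hC hs (t := S j i) (ne_top_of_le_ne_top
      (ENNReal.mul_ne_top (by simp) (hfin j i)) (hS j i))
    calc ediam (t j i) ^ a * ν (S j i)
        ≤ ediam (t j i) ^ a * (C * ((L : ℝ≥0∞) * ediam (t j i)) ^ s) :=
          mul_le_mul' le_rfl (h1.trans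
            (mul_le_mul' le_rfl (ENNReal.rpow_le_rpow (hS j i) hs.le)))
      _ = _ := by
          rw [ENNReal.mul_rpow_of_nonneg _ _ hs.le, ENNReal.rpow_add_of_nonneg _ _ ha.le hs.le]
          ring
  have hφm : ∀ j, Measurable (φ j) := fun j => Measurable.tsum (hm j)
  have hint : ∫⁻ z, ∑' j, φ j z ∂ν ≠ ∞ := by
    rw [lintegral_tsum fun j => (hφm j).aemeasurable]
    refine ne_top_of_le_ne_top ?_ (ENNReal.tsum_le_tsum hφ)
    rw [ENNReal.tsum_mul_left, ENNReal.tsum_geometric]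
    exact ENNReal.mul_ne_top (ENNReal.mul_ne_top hC
      (ENNReal.rpow_ne_top_of_nonneg hs.le (by simp))) (by simp)
  filter_upwards [ae_lt_top (Measurable.tsum hφm) hint] with z hz
  have hz0 := ENNReal.tendsto_atTop_zero_of_tsum_ne_top hz.ne
  refine null_of_covers ha fun ε hε => ?_
  obtain ⟨j, hj⟩ := (hz0.eventually (ge_mem_nhds hε)).exists
  classical
  refine ⟨fun i => if z ∈ S j i then t j i else ∅, fun x hx => ?_, le_trans (le_of_eq ?_) hj⟩
  · obtain ⟨i, hi⟩ := mem_iUnion.1 (ht j hx.1)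
    have : z ∈ S j i := subset_closure ⟨x, ⟨hi, hx.1⟩, hx.2⟩
    exact mem_iUnion.2 ⟨i, by simpa [this] using hi⟩
  · refine tsum_congr fun i => ?_
    by_cases hzi : z ∈ S j i <;> simp [hzi, ha]

end Pool.Agent.Lib.MP_823829_an.GM
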