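import Pool.Agent.Lib.MP_823829_an.GM.Frostman

/-!
Riesz potentials of measures with a ball bound, and the projection theorem of Marstrand for the
tilted projections `(z, w) ↦ z + l w` with small complex linear `l`.
-/

namespace Pool.Agent.Lib.MP_823829_an.GM

open MeasureTheory Set Metric Filter Topology
open scoped ENNReal NNReal

/-- The constant in the bound for potentials. -/
noncomputable def potC (s t : ℝ) : ℝ≥0∞ := 1 + 2 ^ s * (1 - 2 ^ (s - t))⁻¹

theorem potC_ne_top {s t : ℝ} (hs : 0 ≤ s) (hst : s < t) : potC s t ≠ ∞ := by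
  have h1 : (2 : ℝ≥0∞) ^ (s - t) < 1 :=
    ENNReal.rpow_lt_one_of_one_lt_of_neg (by norm_num) (by linarith)
  refine ENNReal.add_ne_top.2 ⟨by simp, ENNReal.mul_ne_top
    (ENNReal.rpow_ne_top_of_nonneg hs (by simp)) ?_⟩
  rw [ENNReal.inv_ne_top]
  exact (tsub_pos_of_lt h1).ne'

theorem potC_ne_zero (s t : ℝ) : potC s t ≠ 0 := by simp [potC]

theorem ofReal_half_pow (j : ℕ) (t : ℝ) :
    ENNReal.ofReal ((1 / 2) ^ j) ^ t = 2 ^ (-(j : ℝ) * t) := by
  rw [ENNReal.ofReal_pow (by norm_num), ENNReal.rpow_mul, ENNReal.rpow_neg, ENNReal.rpow_natCast,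
    ENNReal.ofReal_div_of_pos (by norm_num)]
  simp [ENNReal.inv_pow]

theorem pot_bound {α : Type*} [MeasurableSpace α] {ν : Measure α} {g : α → ℝ} (hg : Measurable g)
    {s t : ℝ} (hs : 0 < s) {C : ℝ≥0∞} (h1 : ν univ ≤ C)
    (h : ∀ r, 0 < r → ν {a | g a ≤ r} ≤ C * ENNReal.ofReal r ^ t) :
    ∫⁻ a, ENNReal.ofReal (g a) ^ (-s) ∂ν ≤ C * potC s t := by
  let S : ℕ → Set α := fun j => {a | g a ≤ (1 / 2) ^ j}
  have hS : ∀ j, MeasurableSet (S j) := fun j => measurableSet_le hg measurable_const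
  let c : ℕ → ℝ≥0∞ := fun j => 2 ^ (((j : ℝ) + 1) * s)
  have hp : ∀ a, ENNReal.ofReal (g a) ^ (-s) ≤ 1 + ∑' j, (S j).indicator (fun _ => c j) a := by
    intro a
    rcases le_or_gt (g a) 0 with h0 | h0
    · have : ∑' j, (S j).indicator (fun _ => c j) a = ∞ := by
        refine top_unique (le_trans (ENNReal.tsum_const_eq_top_of_ne_zero
          (α := ℕ) one_ne_zero).ge (ENNReal.tsum_le_tsum fun j => ?_))
        rw [indicator_of_mem (show a ∈ S j from h0.trans (by positivity))]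
        exact ENNReal.one_le_rpow (by norm_num) (by positivity)
      simp [this]
    rcases le_total (g a) 1 with h2 | h2
    · obtain ⟨j, j1, j2⟩ := exists_nat_pow_near_of_lt_one h0 h2
        (by norm_num : (0 : ℝ) < 1 / 2) (by norm_num)
      refine le_trans ?_ (le_add_left (ENNReal.le_tsum j))
      rw [indicator_of_mem (show a ∈ S j from j2)]
      have e := ofReal_half_pow (j + 1) (-s)
      rw [show -((j + 1 : ℕ) : ℝ) * -s = ((j : ℝ) + 1) * s by push_cast; ring] at e
      simp only [c]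
      rw [← e, ENNReal.rpow_neg, ENNReal.rpow_neg]
      exact ENNReal.inv_le_inv.2 (ENNReal.rpow_le_rpow (ENNReal.ofReal_le_ofReal j1.le) hs.le)
    · exact le_add_right (ENNReal.rpow_le_one_of_one_le_of_neg
        (ENNReal.one_le_ofReal.2 h2) (by linarith))
  refine (lintegral_mono hp).trans ?_
  rw [lintegral_add_left measurable_const,
    lintegral_tsum fun j => (measurable_const.indicator (hS j)).aemeasurable, potC, mul_add]
  refine add_le_add (by simpa using h1) ?_
  rw [← ENNReal.tsum_geometric, ← ENNReal.tsum_mul_left, ← ENNReal.tsum_mul_left]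
  refine ENNReal.tsum_le_tsum fun j => ?_
  rw [lintegral_indicator_const (hS j)]
  refine (mul_le_mul' le_rfl (h _ (by positivity))).trans (le_of_eq ?_)
  rw [ofReal_half_pow, mul_left_comm, ← ENNReal.rpow_natCast, ← ENNReal.rpow_mul,
    ← ENNReal.rpow_add _ _ (by simp) (by simp), ← ENNReal.rpow_add _ _ (by simp) (by simp)]
  congr 2
  ring

/-- The Riesz potential of a finite measure with a ball bound is bounded. -/
theorem Fro.pot_le {X : Type*} [PseudoMetricSpace X] [MeasurableSpace X] [OpensMeasurableSpace X]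
    {s t : ℝ} (hs : 0 < s) {C : ℝ≥0∞} {ν : Measure X} (h : Fro t C ν) (h1 : ν univ ≤ C) (x : X) :
    ∫⁻ y, ENNReal.ofReal (dist y x) ^ (-s) ∂ν ≤ C * potC s t :=
  pot_bound (by fun_prop) hs h1 fun r hr => h x r hr

/-- A measure of finite energy has a part with the ball bound. -/
theorem exists_fro_of_energy {X : Type*} [PseudoMetricSpace X] [SecondCountableTopology X]
    [MeasurableSpace X] [BorelSpace X] {s : ℝ} (hs : 0 < s) {ν : Measure X} [SFinite ν]
    (h0 : ν ≠ 0) (h : ∫⁻ x, ∫⁻ y, ENNReal.ofReal (dist y x) ^ (-s) ∂ν ∂ν ≠ ∞) :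
    ∃ (S : Set X) (C : ℝ≥0∞), MeasurableSet S ∧ ν S ≠ 0 ∧ C ≠ ∞ ∧ Fro s C (ν.restrict S) := by
  let U : X → ℝ≥0∞ := fun x => ∫⁻ y, ENNReal.ofReal (dist y x) ^ (-s) ∂ν
  have hU : Measurable U := Measurable.lintegral_prod_right'
    (f := fun p : X × X => ENNReal.ofReal (dist p.2 p.1) ^ (-s)) (by fun_prop)
  have h1 : ∃ n : ℕ, ν {x | U x ≤ n} ≠ 0 := by
    by_contra! hn
    apply h0
    have h2 : ∀ᵐ x ∂ν, ∀ n : ℕ, ¬ U x ≤ n := ae_all_iff.2 fun n => by simpa [ae_iff] using hn n
    rw [← ae_eq_bot, ← eventually_false_iff_eq_bot]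
    filter_upwards [h2, ae_lt_top hU h] with x hx hx'
    obtain ⟨n, hn⟩ := ENNReal.exists_nat_gt hx'.ne
    exact hx n hn.le
  obtain ⟨n, hn⟩ := h1
  refine ⟨_, n * 2 ^ s, measurableSet_le hU measurable_const, hn,
    ENNReal.mul_ne_top (by simp) (ENNReal.rpow_ne_top_of_nonneg hs.le (by simp)), fun x r hr => ?_⟩
  rw [Measure.restrict_apply isClosed_closedBall.measurableSet]
  rcases (closedBall x r ∩ {x | U x ≤ n}).eq_empty_or_nonempty with h2 | ⟨y, hy, hyn⟩
  · simp [h2]
  have h3 : ENNReal.ofReal (2 * r) ^ (-s) * ν (closedBall x r) ≤ n := by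
    refine le_trans ?_ hyn
    rw [← lintegral_indicator_const isClosed_closedBall.measurableSet]
    refine lintegral_mono fun z => ?_
    by_cases hz : z ∈ closedBall x r
    swap
    · simp [hz]
    rw [indicator_of_mem hz, ENNReal.rpow_neg, ENNReal.rpow_neg]
    refine ENNReal.inv_le_inv.2 (ENNReal.rpow_le_rpow (ENNReal.ofReal_le_ofReal ?_) hs.le)
    have := dist_triangle_right z y x
    linarith [mem_closedBall.1 hz, mem_closedBall.1 hy]
  have e : (2 : ℝ≥0∞) ^ s * ENNReal.ofReal r ^ s = ENNReal.ofReal (2 * r) ^ s := by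
    rw [ENNReal.ofReal_mul (by norm_num), ENNReal.mul_rpow_of_nonneg _ _ hs.le]
    simp
  rw [mul_assoc, e]
  refine (measure_mono inter_subset_left).trans ?_
  rw [ENNReal.rpow_neg, mul_comm, ← div_eq_mul_inv] at h3
  exact (ENNReal.div_le_iff (ENNReal.rpow_pos (by simpa using hr) ENNReal.ofReal_ne_top).ne'
    (ENNReal.rpow_ne_top_of_nonneg hs.le ENNReal.ofReal_ne_top)).1 h3

end Pool.Agent.Lib.MP_823829_an.GM
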