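import Pool.Agent.Lib.MP_823829_an.GM.Content

/-!
The lemma of Frostman in finite dimensional normed spaces.
-/

namespace Pool.Agent.Lib.MP_823829_an.GM

open MeasureTheory Set Metric Filter Topology
open scoped ENNReal NNReal

section Tree

variable {X Λ : Type*} [MeasurableSpace X] [MeasurableSpace Λ] [DiscreteMeasurableSpace Λ]

theorem spread {K : Set X} (hK : MeasurableSet K) {p : X → Λ} (hp : Measurable p) (S : Finset Λ)
    (hS : ∀ b ∈ S, b ∈ p '' K) (w : Λ → ℝ≥0∞) :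
    ∃ ν : Measure X, ν Kᶜ = 0 ∧ ∀ T : Set Λ, ν (p ⁻¹' T) = ∑ b ∈ S, T.indicator w b := by
  choose x hx hpx using hS
  refine ⟨∑ b ∈ S.attach, w b • Measure.dirac (x b b.2), ?_, fun T => ?_⟩
  · simp [Measure.dirac_apply' _ hK.compl, hx]
  · rw [← Finset.sum_attach S]
    simp only [Measure.coe_finsetSum, Finset.sum_apply, Measure.smul_apply, smul_eq_mul]
    refine Finset.sum_congr rfl fun b _ => ?_
    rw [Measure.dirac_apply' _ (hp MeasurableSet.of_discrete)]
    by_cases h : (b : Λ) ∈ T <;> simp [indicator, hpx, h]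

theorem agree [Countable Λ] {p : X → Λ} (hp : Measurable p) {ν ν' : Measure X}
    (h : ∀ a, ν (p ⁻¹' {a}) = ν' (p ⁻¹' {a})) (T : Set Λ) : ν (p ⁻¹' T) = ν' (p ⁻¹' T) := by
  have : ν.map p = ν'.map p := Measure.ext_iff_singleton.2 fun a => by
    rw [Measure.map_apply hp MeasurableSet.of_discrete,
      Measure.map_apply hp MeasurableSet.of_discrete, h]
  rw [← Measure.map_apply hp MeasurableSet.of_discrete, this,
    Measure.map_apply hp MeasurableSet.of_discrete]

theorem refine_step {K : Set X} (hK : MeasurableSet K) {p p' : X → Λ} (hp' : Measurable p')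
    {par : Λ → Λ} (hpar : ∀ x, p x = par (p' x)) (hfin : (p' '' K).Finite) (c : OuterMeasure X)
    (hc : ∀ b, c (K ∩ p' ⁻¹' {b}) ≠ ∞) {ν : Measure X} (hν : ∀ a, ν (p ⁻¹' {a}) ≤ c (K ∩ p ⁻¹' {a})) :
    ∃ ν' : Measure X, ν' Kᶜ = 0 ∧ (∀ a, ν' (p ⁻¹' {a}) = ν (p ⁻¹' {a})) ∧
      ∀ b, ν' (p' ⁻¹' {b}) ≤ c (K ∩ p' ⁻¹' {b}) := by
  classical
  let S := hfin.toFinset
  let D : Λ → ℝ≥0∞ := fun a => ∑ b ∈ S with par b = a, c (K ∩ p' ⁻¹' {b})
  have hD : ∀ a, ν (p ⁻¹' {a}) ≤ D a := fun a => by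
    refine (hν a).trans (le_trans (measure_mono fun x hx => ?_) (measure_biUnion_finset_le _ _))
    refine mem_biUnion (x := p' x) ?_ ⟨hx.1, rfl⟩
    have h2 : p x = a := hx.2
    simp only [Finset.coe_filter, S, Finite.mem_toFinset, mem_ofPred_eq]
    exact ⟨mem_image_of_mem _ hx.1, by rw [← hpar, h2]⟩
  have hDt : ∀ a, D a ≠ ∞ := fun a => ENNReal.sum_ne_top.2 fun b _ => hc b
  obtain ⟨ν', h0, h1⟩ := spread hK hp' S (fun b hb => by simpa [S] using hb)
    fun b => ν (p ⁻¹' {par b}) / D (par b) * c (K ∩ p' ⁻¹' {b})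
  refine ⟨ν', h0, fun a => ?_, fun b => ?_⟩
  · have e : p ⁻¹' {a} = p' ⁻¹' (par ⁻¹' {a}) := by ext x; simp [hpar]
    conv_lhs => rw [e]
    rw [h1]
    have : ∑ b ∈ S, (par ⁻¹' {a}).indicator
        (fun b => ν (p ⁻¹' {par b}) / D (par b) * c (K ∩ p' ⁻¹' {b})) b =
        ν (p ⁻¹' {a}) / D a * D a := by
      simp only [D, Finset.mul_sum, Finset.sum_filter]
      refine Finset.sum_congr rfl fun b _ => ?_
      by_cases hb : par b = a <;> simp [indicator, hb]
    rw [this]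
    rcases eq_or_ne (D a) 0 with h | h
    · have := hD a
      rw [h] at this ⊢
      simp [le_antisymm this zero_le]
    · exact ENNReal.div_mul_cancel h (hDt a)
  · rw [h1, Finset.sum_eq_single b (fun b' _ hb' => by simp [hb']) (fun hb => ?_)]
    · simp only [mem_singleton_iff, indicator_of_mem]
      exact mul_le_of_le_one_left' (ENNReal.div_le_of_le_mul (by simpa using hD _))
    · have : K ∩ p' ⁻¹' {b} = ∅ := by
        refine eq_empty_of_forall_notMem fun x hx => hb ?_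
        simp only [S, Finite.mem_toFinset]
        exact ⟨x, hx.1, hx.2⟩
      simp [this]

theorem tree [Countable Λ] {K : Set X} (hK : MeasurableSet K) {q : ℕ → X → Λ}
    (hq : ∀ k, Measurable (q k)) {par : Λ → Λ} (hpar : ∀ k x, q k x = par (q (k + 1) x))
    (hfin : ∀ k, (q k '' K).Finite) (c : OuterMeasure X)
    (hc : ∀ k b, c (K ∩ q k ⁻¹' {b}) ≠ ∞) :
    ∃ B : ℝ≥0∞, c K ≤ B ∧ B ≠ ∞ ∧ ∀ k, ∃ ν : Measure X, ν Kᶜ = 0 ∧ ν univ = B ∧
      ∀ j ≤ k, ∀ a, ν (q j ⁻¹' {a}) ≤ c (K ∩ q j ⁻¹' {a}) := by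
  classical
  refine ⟨∑ b ∈ (hfin 0).toFinset, c (K ∩ q 0 ⁻¹' {b}), ?_,
    ENNReal.sum_ne_top.2 fun b _ => hc 0 b, fun k => ?_⟩
  · refine le_trans (measure_mono fun x hx => ?_) (measure_biUnion_finset_le _ _)
    exact mem_biUnion (x := q 0 x) (by simpa using mem_image_of_mem _ hx) ⟨hx, rfl⟩
  have hsat : ∀ k j, j ≤ k → ∀ a, ∃ T, q j ⁻¹' {a} = q k ⁻¹' T := by
    intro k j hjk a
    induction k, hjk using Nat.le_induction with
    | base => exact ⟨_, rfl⟩
    | succ k _ ih =>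
      obtain ⟨T, hT⟩ := ih
      exact ⟨par ⁻¹' T, by rw [hT]; ext x; simp [hpar k x]⟩
  induction k with
  | zero =>
    obtain ⟨ν, h0, h1⟩ := spread hK (hq 0) (hfin 0).toFinset (fun b hb => by simpa using hb)
      fun b => c (K ∩ q 0 ⁻¹' {b})
    refine ⟨ν, h0, by simpa using h1 univ, fun j hj a => ?_⟩
    obtain rfl : j = 0 := by omega
    rw [h1]
    refine (Finset.sum_le_sum_of_subset (Finset.subset_insert a _)).trans ?_
    rw [Finset.sum_eq_single a (fun b' _ hb' => by simp [hb']) (by simp)]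
    simp
  | succ k ih =>
    obtain ⟨ν, h0, h1, h2⟩ := ih
    obtain ⟨ν', g0, g1, g2⟩ := refine_step hK (hq (k + 1)) (hpar k) (hfin (k + 1)) c (hc (k + 1))
      (h2 k le_rfl)
    refine ⟨ν', g0, by simpa [h1] using agree (hq k) g1 univ, fun j hj a => ?_⟩
    rcases hj.eq_or_lt with rfl | hj
    · exact g2 a
    · obtain ⟨T, hT⟩ := hsat k j (by omega) a
      have := h2 j (by omega) a
      conv_lhs => rw [hT, agree (hq k) g1 T, ← hT]
      exact this

end Tree

section Cubes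

variable {ι : Type} [Fintype ι]

/-- The label of the dyadic cube of level `k` that contains a point. -/
noncomputable def lab (k : ℕ) (x : ι → ℝ) : ι → ℤ := fun i => ⌊2 ^ k * x i⌋

omit [Fintype ι] in
theorem lab_par (k : ℕ) (x : ι → ℝ) : lab k x = (fun a i => a i / 2) (lab (k + 1) x) := by
  funext i
  have := Int.floor_div_natCast (2 ^ (k + 1) * x i) 2
  simp only [lab]
  rw [show (2 : ℤ) = ((2 : ℕ) : ℤ) from rfl, ← this]
  congr 1
  push_cast
  ring

theorem lab_diam (k : ℕ) (a : ι → ℤ) :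
    ediam (lab k ⁻¹' {a}) ≤ ENNReal.ofReal ((1 / 2) ^ k) := by
  refine ediam_le_of_forall_dist_le fun x hx y hy => ?_
  refine (dist_pi_le_iff (by positivity)).2 fun i => ?_
  have h1 : ⌊2 ^ k * x i⌋ = ⌊2 ^ k * y i⌋ := by
    have e1 : lab k x = a := hx
    have e2 : lab k y = a := hy
    exact congrFun (e1.trans e2.symm) i
  have h2 := Int.abs_sub_lt_one_of_floor_eq_floor h1
  rw [← mul_sub, abs_mul, abs_of_pos (by positivity : (0 : ℝ) < 2 ^ k)] at h2
  rw [Real.dist_eq, one_div, inv_pow, ← one_div, le_div_iff₀ (by positivity)]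
  linarith

theorem lab_near (k : ℕ) {x y : ι → ℝ} (h : dist y x ≤ (1 / 2) ^ k) (i : ι) :
    lab k y i ∈ Finset.Icc (lab k x i - 1) (lab k x i + 1) := by
  have h1 : |y i - x i| ≤ (1 / 2) ^ k := (dist_le_pi_dist y x i).trans h
  have h2 : |2 ^ k * y i - 2 ^ k * x i| ≤ 1 := by
    rw [← mul_sub, abs_mul, abs_of_pos (by positivity : (0 : ℝ) < 2 ^ k)]
    calc (2 : ℝ) ^ k * |y i - x i| ≤ 2 ^ k * (1 / 2) ^ k := by gcongr
      _ = 1 := by rw [← mul_pow]; norm_num
  obtain ⟨h3, h4⟩ := abs_le.1 h2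
  simp only [lab, Finset.mem_Icc]
  constructor
  · rw [← Int.floor_sub_one]
    exact Int.floor_mono (by linarith)
  · rw [← Int.floor_add_one]
    exact Int.floor_mono (by linarith)

theorem lab_finite (k : ℕ) {K : Set (ι → ℝ)} (hK : IsCompact K) : (lab k '' K).Finite := by
  obtain ⟨t, -, ht⟩ := hK.elim_nhds_subcover (fun x => closedBall x ((1 / 2) ^ k))
    fun x _ => closedBall_mem_nhds x (by positivity)
  classical
  refine (t.biUnion fun x => Fintype.piFinset fun i =>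
    Finset.Icc (lab k x i - 1) (lab k x i + 1)).finite_toSet.subset ?_
  rintro _ ⟨y, hy, rfl⟩
  obtain ⟨x, hx, hxy⟩ := mem_iUnion₂.1 (ht hy)
  simp only [Finset.coe_biUnion, mem_iUnion, Finset.mem_coe, Fintype.mem_piFinset]
  exact ⟨x, hx, lab_near k hxy⟩

theorem frostman_pi {s : ℝ} (hs : 0 < s) {K : Set (ι → ℝ)} (hK : IsCompact K)
    (h : μH[s] K ≠ 0) :
    ∃ (ν : Measure (ι → ℝ)) (C : ℝ≥0∞), IsProbabilityMeasure ν ∧ ν Kᶜ = 0 ∧ C ≠ ∞ ∧ Fro s C ν := by
  classical
  have hcell : ∀ k (a : ι → ℤ), cont hs (K ∩ lab k ⁻¹' {a}) ≤ ENNReal.ofReal ((1 / 2) ^ k) ^ s :=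
    fun k a => (cont_le hs _).trans (ENNReal.rpow_le_rpow
      ((ediam_mono inter_subset_right).trans (lab_diam k a)) hs.le)
  obtain ⟨B, hB, hBt, hν⟩ := tree hK.measurableSet (q := lab)
    (fun k => measurable_pi_lambda _ fun i => Int.measurable_floor.comp (by fun_prop))
    (par := fun a i => a i / 2) lab_par (fun k => lab_finite k hK) (cont hs)
    (fun k b => ne_top_of_le_ne_top (ENNReal.rpow_ne_top_of_nonneg hs.le (by simp)) (hcell k b))
  have hB0 : B ≠ 0 := fun h0 => h (null_of_cont hs (le_antisymm (h0 ▸ hB) zero_le))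
  choose ν h0 h1 h2 using hν
  let μ : ℕ → ProbabilityMeasure (ι → ℝ) := fun k =>
    ⟨B⁻¹ • ν k, ⟨by simp [h1, ENNReal.inv_mul_cancel hB0 hBt]⟩⟩
  have hcomp := isCompact_setOfPred_probabilityMeasure_mass_eq_compl_isCompact_le
    (u := fun _ => 0) (K := fun _ => K) tendsto_const_nhds (fun _ => hK) (Or.inl inferInstance)
  obtain ⟨m, hm, hlim⟩ := hcomp.ultrafilter_le_nhds (Ultrafilter.map μ (hyperfilter ℕ)) (by
    rw [Ultrafilter.coe_map, le_principal_iff, mem_map]
    refine Eventually.of_forall fun k _ => ?_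
    have : (μ k : Measure (ι → ℝ)) Kᶜ = 0 := by simp [μ, h0]
    exact ((ProbabilityMeasure.null_iff_toMeasure_null _ _).2 this).le)
  have hball : ∀ x (j : ℕ), (m : Measure (ι → ℝ)) (ball x ((1 / 2) ^ j)) ≤
      B⁻¹ * 3 ^ Fintype.card ι * ENNReal.ofReal ((1 / 2) ^ j) ^ s := fun x j => by
    have hl : Tendsto μ (hyperfilter ℕ) (𝓝 m) := hlim
    refine (ProbabilityMeasure.le_liminf_measure_open_of_tendsto hl isOpen_ball).trans
      (liminf_le_of_frequently_le' ?_)
    refine Eventually.frequently ?_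
    filter_upwards [Nat.hyperfilter_le_atTop (eventually_ge_atTop j)] with k hk
    let T := Fintype.piFinset fun i => Finset.Icc (lab j x i - 1) (lab j x i + 1)
    have hT : ball x ((1 / 2) ^ j) ⊆ ⋃ a ∈ T, lab j ⁻¹' {a} := fun y hy =>
      mem_biUnion (x := lab j y)
        (by simpa [T, -Finset.mem_Icc, -mem_Icc, -Finset.coe_Icc] using
          lab_near j (mem_ball.1 hy).le) rfl
    have hc : T.card = 3 ^ Fintype.card ι := by
      simp only [T, Fintype.card_piFinset, Int.card_Icc]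
      rw [Finset.prod_congr rfl (g := fun _ => 3) fun i _ => by omega]
      simp
    have := ((measure_mono hT).trans (measure_biUnion_finset_le (μ := ν k) _ _)).trans
      (Finset.sum_le_card_nsmul _ _ _ fun a _ => (h2 k j hk a).trans (hcell j a))
    rw [hc, nsmul_eq_mul] at this
    simp only [μ, ProbabilityMeasure.coe_mk, Measure.smul_apply, smul_eq_mul, mul_assoc]
    exact mul_le_mul' le_rfl (by exact_mod_cast this)
  refine ⟨m, (B⁻¹ * 3 ^ Fintype.card ι + 1) * 4 ^ s, inferInstance, ?_, ?_, fun x r hr => ?_⟩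
  · exact (ProbabilityMeasure.null_iff_toMeasure_null _ _).1 (le_antisymm (hm 0) zero_le)
  · refine ENNReal.mul_ne_top (ENNReal.add_ne_top.2 ⟨ENNReal.mul_ne_top (by simpa using hB0)
      (by simp), by simp⟩) (ENNReal.rpow_ne_top_of_nonneg hs.le (by simp))
  have e4 : (4 : ℝ≥0∞) ^ s * ENNReal.ofReal r ^ s = ENNReal.ofReal (4 * r) ^ s := by
    rw [ENNReal.ofReal_mul (by norm_num), ENNReal.mul_rpow_of_nonneg _ _ hs.le]
    simp
  rw [mul_assoc, e4]
  rcases le_total (2 * r) 1 with h3 | h3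
  · obtain ⟨j, j1, j2⟩ := exists_nat_pow_near_of_lt_one (by linarith : 0 < 2 * r) h3
      (by norm_num : (0 : ℝ) < 1 / 2) (by norm_num)
    refine ((measure_mono (closedBall_subset_ball (by linarith))).trans (hball x j)).trans ?_
    refine mul_le_mul' le_self_add (ENNReal.rpow_le_rpow (ENNReal.ofReal_le_ofReal ?_) hs.le)
    rw [pow_succ] at j1
    linarith
  · refine prob_le_one.trans ?_
    calc (1 : ℝ≥0∞) = 1 * 1 ^ s := by simp
      _ ≤ _ := mul_le_mul' le_add_self
        (ENNReal.rpow_le_rpow (ENNReal.one_le_ofReal.2 (by linarith)) hs.le)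

end Cubes

/-- The ball bound passes to the image under a map that does not contract distances much. -/
theorem Fro.map {X Y : Type*} [PseudoMetricSpace X] [MeasurableSpace X] [PseudoMetricSpace Y]
    [MeasurableSpace Y] [OpensMeasurableSpace Y] {s : ℝ} (hs : 0 ≤ s) {C : ℝ≥0∞}
    {ν : Measure X} (h : Fro s C ν) {f : X → Y} (hf : Measurable f) {L : ℝ≥0}
    (hL : AntilipschitzWith L f) : Fro s (C * (2 * L + 1) ^ s) (ν.map f) := by
  intro y r hr
  rw [Measure.map_apply hf isClosed_closedBall.measurableSet]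
  rcases (f ⁻¹' closedBall y r).eq_empty_or_nonempty with h0 | ⟨x, hx⟩
  · simp [h0]
  have h1 : f ⁻¹' closedBall y r ⊆ closedBall x ((2 * L + 1) * r) := fun x' hx' => by
    have := hL.le_mul_dist x' x
    have h2 := dist_triangle_right (f x') (f x) y
    have h3 : dist (f x') y ≤ r := hx'
    have h4 : dist (f x) y ≤ r := hx
    have h5 : (0 : ℝ) ≤ L := L.2
    rw [mem_closedBall]
    nlinarith
  refine ((measure_mono h1).trans (h x _ (by positivity))).trans (le_of_eq ?_)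
  rw [ENNReal.ofReal_mul (by positivity), ENNReal.mul_rpow_of_nonneg _ _ hs, mul_assoc,
    ENNReal.ofReal_add (by positivity) (by positivity), ENNReal.ofReal_mul (by positivity)]
  simp

/-- The lemma of Frostman. -/
theorem frostman {E : Type*} [NormedAddCommGroup E] [NormedSpace ℝ E] [FiniteDimensional ℝ E]
    [MeasurableSpace E] [BorelSpace E] {s : ℝ} (hs : 0 < s) {K : Set E} (hK : IsCompact K)
    (h : μH[s] K ≠ 0) :
    ∃ (ν : Measure E) (C : ℝ≥0∞), IsProbabilityMeasure ν ∧ ν Kᶜ = 0 ∧ C ≠ ∞ ∧ Fro s C ν := by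
  let e : E ≃L[ℝ] (Fin (Module.finrank ℝ E) → ℝ) :=
    (Module.finBasis ℝ E).equivFun.toContinuousLinearEquiv
  have h1 : μH[s] (e '' K) ≠ 0 := fun h0 => h (by
    have := e.antilipschitz.le_hausdorffMeasure_image hs.le K
    rw [h0, mul_zero] at this
    exact le_antisymm this zero_le)
  obtain ⟨ν, C, hp, h0, hC, hF⟩ := frostman_pi hs (hK.image e.continuous) h1
  have hm : Measurable e.symm := e.symm.continuous.measurable
  refine ⟨ν.map e.symm, _, Measure.isProbabilityMeasure_map hm.aemeasurable, ?_, ?_,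
    hF.map hs.le hm e.symm.antilipschitz⟩
  · rw [Measure.map_apply hm hK.measurableSet.compl, preimage_compl, ← e.image_eq_preimage_symm]
    exact h0
  · exact ENNReal.mul_ne_top hC (ENNReal.rpow_ne_top_of_nonneg hs.le (by finiteness))

/-- A locally closed set that is null for every probability measure with the ball bound is null
for Hausdorff measure. -/
theorem null_of_fro {E : Type*} [NormedAddCommGroup E] [NormedSpace ℝ E] [FiniteDimensional ℝ E]
    [MeasurableSpace E] [BorelSpace E] {s : ℝ} (hs : 0 < s) {D W : Set E} (hD : IsOpen D)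
    (hW : IsOpen W)
    (h : ∀ (K : Set E) (ν : Measure E) (C : ℝ≥0∞), IsCompact K → K ⊆ D \ W →
      IsProbabilityMeasure ν → ν Kᶜ = 0 → C ≠ ∞ → ¬ Fro s C ν) : μH[s] (D \ W) = 0 := by
  have : ProperSpace E := FiniteDimensional.proper ℝ E
  refine measure_null_of_locally_null _ fun x hx => ?_
  obtain ⟨r, hr, hxr⟩ := nhds_basis_closedBall.mem_iff.1 (hD.mem_nhds hx.1)
  refine ⟨closedBall x r \ W, ?_, ?_⟩
  · exact mem_nhdsWithin_iff_exists_mem_nhds_inter.2
      ⟨_, closedBall_mem_nhds x hr, fun y hy => ⟨hy.1, hy.2.2⟩⟩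
  by_contra h0
  have hK := (isCompact_closedBall x r).diff hW
  obtain ⟨ν, C, hp, h1, hC, hF⟩ := frostman hs hK h0
  exact h _ ν C hK (sdiff_subset_sdiff_left hxr) hp h1 hC hF

end Pool.Agent.Lib.MP_823829_an.GM
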