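import Pool.Agent.Lib.MP_823829_an.GM.Content

/-!
Closed sets of codimension more than one are nowhere dense and do not separate convex open sets.
-/

namespace Pool.Agent.Lib.MP_823829_an.GM

open MeasureTheory Set Metric Filter Topology
open scoped ENNReal NNReal

variable {E : Type*} [NormedAddCommGroup E] [NormedSpace ℝ E] [FiniteDimensional ℝ E]
  [MeasurableSpace E] [BorelSpace E]

theorem haar_null (μ : Measure E) [μ.IsAddHaarMeasure] {s : ℝ} (hs : 0 < s)
    (hn : s ≤ Module.finrank ℝ E) {P : Set E} (h : μH[s] P = 0) : μ P = 0 :=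
  have : ProperSpace E := FiniteDimensional.proper ℝ E
  (fro_haar μ).null (isCompact_closedBall 0 1).measure_lt_top.ne (hs.trans_le hn)
    (null_mono_exp hn h)

theorem dense_compl {s : ℝ} (hs : 0 < s) (hn : s ≤ Module.finrank ℝ E) {P : Set E}
    (h : μH[s] P = 0) : Dense Pᶜ :=
  have : ProperSpace E := FiniteDimensional.proper ℝ E
  Measure.dense_of_ae (μ := Measure.addHaar) (p := fun x => x ∉ P)
    (haar_null Measure.addHaar hs hn (by simpa [compl_ofPred] using h))

theorem hausdorff_ne_zero {s : ℝ} (hs : 0 < s) (hn : s ≤ Module.finrank ℝ E) {U : Set E}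
    (hU : IsOpen U) (hne : U.Nonempty) : μH[s] U ≠ 0 := fun h => by
  obtain ⟨x, hx, hx'⟩ := (dense_compl hs hn h).inter_open_nonempty U hU hne
  exact hx' hx

theorem subset_closure_diff {s : ℝ} (hs : 0 < s) (hn : s ≤ Module.finrank ℝ E) {P D : Set E}
    (h : μH[s] P = 0) (hD : IsOpen D) : D ⊆ closure (D \ P) :=
  (dense_compl hs hn h).open_subset_closure_inter hD

/-- A short translate of a given line misses a set of codimension more than one. -/
theorem exists_shift {s : ℝ} (hs : 0 < s) (hn : s + 1 ≤ Module.finrank ℝ E) {P : Set E}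
    (h : μH[s] P = 0) (x : E) {v : E} (hv : v ≠ 0) {ε : ℝ} (hε : 0 < ε) :
    ∃ u : E, ‖u‖ < ε ∧ ∀ t : ℝ, x + u + t • v ∉ P := by
  obtain ⟨l, -, hl⟩ := exists_dual_vector ℝ v (norm_ne_zero_iff.2 hv)
  have hv' : ‖v‖ ≠ 0 := norm_ne_zero_iff.2 hv
  let W : Submodule ℝ E := LinearMap.ker (l : E →ₗ[ℝ] ℝ)
  have hW : Module.finrank ℝ W + 1 = Module.finrank ℝ E := by
    have h1 := LinearMap.finrank_range_add_finrank_ker (l : E →ₗ[ℝ] ℝ)
    have h2 : LinearMap.range (l : E →ₗ[ℝ] ℝ) = ⊤ := by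
      refine LinearMap.range_eq_top.2 fun c => ⟨(c / ‖v‖) • v, ?_⟩
      simp [hl, hv']
    rw [h2, finrank_top, Module.finrank_self] at h1
    rw [← h1, add_comm]
  let π : E →L[ℝ] W := (ContinuousLinearMap.id ℝ E - (‖v‖⁻¹ • l).smulRight v).codRestrict W
    fun y => by simp [W, hl]; field_simp; ring
  have h1 : μH[s] (π '' P) = 0 := by
    have := π.lipschitz.hausdorffMeasure_image_le hs.le P
    rw [h, mul_zero] at this
    exact le_antisymm this zero_le
  have h2 : s ≤ Module.finrank ℝ W := by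
    have : (Module.finrank ℝ W : ℝ) + 1 = Module.finrank ℝ E := by exact_mod_cast hW
    linarith
  obtain ⟨w, hw, hw'⟩ := (dense_compl hs h2 h1).inter_open_nonempty _ isOpen_ball
    (nonempty_ball.2 hε : (ball (π x) ε).Nonempty)
  refine ⟨(w - π x : W), by simpa [dist_eq_norm] using hw, fun t ht => hw' ⟨_, ht, ?_⟩⟩
  have e1 : π ((w - π x : W) : E) = w - π x := by
    have : l ((w - π x : W) : E) = 0 := (w - π x).2
    ext
    simp only [π, ContinuousLinearMap.coe_codRestrict_apply, sub_apply,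
      ContinuousLinearMap.id_apply, ContinuousLinearMap.smulRight_apply,
      smul_apply] at this ⊢
    rw [this]
    simp
  have e2 : π v = 0 := by
    ext
    simp [π, hl, hv']
  rw [map_add, map_add, map_smul, e1, e2]
  simp

/-- A relatively closed set of codimension more than one does not separate a convex set. -/
theorem isPreconnected_diff {s : ℝ} (hs : 0 < s) (hn : s + 1 ≤ Module.finrank ℝ E) {P D : Set E}
    (h : μH[s] P = 0) (hD : Convex ℝ D) (ho : IsOpen (D \ P)) : IsPreconnected (D \ P) := by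
  refine isPreconnected_of_forall_pair fun x hx y hy => ?_
  rcases eq_or_ne x y with rfl | hxy
  · exact ⟨{x}, by simpa using hx, rfl, rfl, isPreconnected_singleton⟩
  obtain ⟨a, ha, hxa⟩ := Metric.isOpen_iff.1 ho x hx
  obtain ⟨b, hb, hyb⟩ := Metric.isOpen_iff.1 ho y hy
  obtain ⟨u, hu, hP⟩ := exists_shift hs hn h x (sub_ne_zero.2 hxy.symm) (lt_min ha hb)
  have hxu : x + u ∈ ball x a := by simpa using hu.trans_le (min_le_left _ _)
  have hyu : y + u ∈ ball y b := by simpa using hu.trans_le (min_le_right _ _)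
  refine ⟨ball x a ∪ segment ℝ (x + u) (y + u) ∪ ball y b, ?_, by simp [ha], by simp [hb], ?_⟩
  · refine union_subset (union_subset hxa fun z hz => ⟨hD.segment_subset (hxa hxu).1
      (hyb hyu).1 hz, ?_⟩) hyb
    rw [segment_eq_image'] at hz
    obtain ⟨t, -, rfl⟩ := hz
    simpa using hP t
  · refine IsPreconnected.union (y + u) (Or.inr (right_mem_segment _ _ _)) hyu ?_
      (convex_ball y b).isPreconnected
    exact IsPreconnected.union (x + u) hxu (left_mem_segment _ _ _)
      (convex_ball x a).isPreconnected (convex_segment _ _).isPreconnected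

/-- The same for an arbitrary preconnected open set. -/
theorem isPreconnected_diff_of_isOpen {s : ℝ} (hs : 0 < s) (hn : s + 1 ≤ Module.finrank ℝ E)
    {P D : Set E} (h : μH[s] P = 0) (hD : IsOpen D) (hc : IsPreconnected D)
    (ho : IsOpen (D \ P)) : IsPreconnected (D \ P) := by
  intro u v hu hv huv ⟨x, hx, hxu⟩ ⟨y, hy, hyv⟩
  by_contra hne
  have hdis : ∀ z ∈ D \ P, z ∈ u → z ∉ v := fun z hz h1 h2 => hne ⟨z, hz, h1, h2⟩
  have hn' : s ≤ Module.finrank ℝ E := by linarith
  have key : ∀ z ∈ D, z ∈ interior (P ∪ u) ∨ z ∈ interior (P ∪ v) := fun z hz => by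
    obtain ⟨r, hr, hzr⟩ := Metric.isOpen_iff.1 hD z hz
    have e : ball z r \ P = ball z r ∩ (D \ P) := by
      ext w
      exact ⟨fun hw => ⟨hw.1, hzr hw.1, hw.2⟩, fun hw => ⟨hw.1, hw.2.2⟩⟩
    have hb := isPreconnected_diff hs hn h (convex_ball z r) (e ▸ isOpen_ball.inter ho)
    have hsub : ball z r \ P ⊆ (u ∩ (D \ P)) ∪ (v ∩ (D \ P)) := fun w hw =>
      have hw' : w ∈ D \ P := ⟨hzr hw.1, hw.2⟩
      (huv hw').imp (⟨·, hw'⟩) (⟨·, hw'⟩)
    have hd : Disjoint (u ∩ (D \ P)) (v ∩ (D \ P)) :=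
      disjoint_left.2 fun w h1 h2 => hdis w h1.2 h1.1 h2.1
    rcases hb.subset_or_subset (hu.inter ho) (hv.inter ho) hd hsub with h1 | h1
    · refine Or.inl (mem_interior_iff_mem_nhds.2 (mem_of_superset (ball_mem_nhds z hr) ?_))
      exact fun w hw => (em (w ∈ P)).imp_right fun hp => (h1 ⟨hw, hp⟩).1
    · refine Or.inr (mem_interior_iff_mem_nhds.2 (mem_of_superset (ball_mem_nhds z hr) ?_))
      exact fun w hw => (em (w ∈ P)).imp_right fun hp => (h1 ⟨hw, hp⟩).1
  obtain ⟨z, hz, h1, h2⟩ := hc _ _ isOpen_interior isOpen_interior key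
    ⟨x, hx.1, interior_maximal subset_union_right hu hxu⟩
    ⟨y, hy.1, interior_maximal subset_union_right hv hyv⟩
  obtain ⟨w, ⟨w1, w2, w3⟩, w4⟩ := (dense_compl hs hn' h).inter_open_nonempty _
    (hD.inter (isOpen_interior.inter isOpen_interior)) ⟨z, hz, h1, h2⟩
  exact hdis w ⟨w1, w4⟩ ((interior_subset w2).resolve_left w4)
    ((interior_subset w3).resolve_left w4)

end Pool.Agent.Lib.MP_823829_an.GM
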