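import Pool.Agent.Lib.MP_823829_an.GM.Energy

/-!
The projection theorem of Marstrand for the tilted projections `(z, w) ↦ z + l w` with small
complex linear `l`.
-/

namespace Pool.Agent.Lib.MP_823829_an.GM

open MeasureTheory Set Metric Filter Topology Module
open scoped ENNReal NNReal

variable {P Q : Type*} [NormedAddCommGroup P] [NormedSpace ℂ P] [FiniteDimensional ℂ P]
  [NormedAddCommGroup Q] [NormedSpace ℂ Q] [FiniteDimensional ℂ Q]

theorem transv_aux [MeasurableSpace (Q →L[ℂ] P)] [BorelSpace (Q →L[ℂ] P)]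
    (η : Measure (Q →L[ℂ] P)) [η.IsAddHaarMeasure] (z : P) {w : Q} (hw : ‖w‖ = 1) {r : ℝ}
    (hr : 0 < r) :
    η {l | ‖l‖ < 1 ∧ ‖z + l w‖ ≤ r} ≤ η (ball 0 2) * ENNReal.ofReal r ^ (finrank ℝ P : ℝ) := by
  borelize P
  have : FiniteDimensional ℝ P := Module.Finite.trans ℂ P
  have : FiniteDimensional ℝ (Q →L[ℂ] P) := Module.Finite.trans ℂ _
  have : ProperSpace P := FiniteDimensional.proper ℝ P
  have : ProperSpace (Q →L[ℂ] P) := FiniteDimensional.proper ℝ _
  let μ : Measure P := Measure.addHaar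
  obtain ⟨f, hf1, hf⟩ := exists_dual_vector ℂ w (by simp [hw])
  have hf' : f w = 1 := by simpa [hw] using hf
  set A : Set (Q →L[ℂ] P) := {l | ‖l‖ < 1 ∧ ‖z + l w‖ ≤ r} with hA
  have hAm : MeasurableSet A :=
    (isOpen_lt (continuous_norm (E := Q →L[ℂ] P)) continuous_const).measurableSet.inter
      (isClosed_le (by fun_prop : Continuous fun l : Q →L[ℂ] P => ‖z + l w‖)
        continuous_const).measurableSet
  have hT : Continuous fun u : P => f.smulRight u :=
    (ContinuousLinearMap.smulRightL ℂ Q P f).continuous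
  let S : Set (P × (Q →L[ℂ] P)) := {p | p.1 ∈ closedBall (0 : P) 1 ∧ p.2 + f.smulRight p.1 ∈ A}
  have hS : MeasurableSet S := (measurable_fst isClosed_closedBall.measurableSet).inter
    ((by fun_prop : Continuous fun p : P × (Q →L[ℂ] P) => p.2 + f.smulRight p.1).measurable hAm)
  have h1 : μ.prod η S = η A * μ (closedBall 0 1) := by
    rw [Measure.prod_apply hS, ← lintegral_indicator_const isClosed_closedBall.measurableSet]
    refine lintegral_congr fun u => ?_
    by_cases hu : u ∈ closedBall (0 : P) 1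
    · rw [indicator_of_mem hu, ← measure_preimage_add_right η (f.smulRight u) A]
      congr 1
      ext l
      simp [S, mem_closedBall_zero_iff.1 hu]
    · rw [indicator_of_notMem hu]
      have : Prod.mk u ⁻¹' S = ∅ := by
        ext l
        simp only [S, mem_preimage, mem_ofPred_eq, hu, false_and, mem_empty_iff_false]
      simp [this]
  have h2 : μ.prod η S ≤ μ (closedBall 0 1) * ENNReal.ofReal r ^ (finrank ℝ P : ℝ)
      * η (ball 0 2) := by
    rw [Measure.prod_apply_symm hS, ← lintegral_indicator_const isOpen_ball.measurableSet]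
    refine lintegral_mono fun l => ?_
    by_cases hl : l ∈ ball (0 : Q →L[ℂ] P) 2
    · rw [indicator_of_mem hl]
      refine le_trans (measure_mono fun u hu => ?_) (fro_haar μ (-(z + l w)) r hr)
      have := hu.2.2
      simp only [add_apply, ContinuousLinearMap.smulRight_apply, hf',
        one_smul] at this
      rwa [mem_closedBall, dist_eq_norm, sub_neg_eq_add, add_comm, add_assoc]
    · have : (fun u => (u, l)) ⁻¹' S = ∅ := by
        refine eq_empty_of_forall_notMem fun u hu => hl ?_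
        have h3 : ‖f.smulRight u‖ ≤ 1 := by
          simpa [hf1] using mem_closedBall_zero_iff.1 hu.1
        have h4 := norm_sub_le (l + f.smulRight u) (f.smulRight u)
        rw [add_sub_cancel_right] at h4
        have h5 : ‖l + f.smulRight u‖ < 1 := hu.2.1
        exact mem_ball_zero_iff.2 (by linarith)
      simp [this]
  rw [h1, mul_assoc, mul_comm] at h2
  rw [mul_comm]
  exact (ENNReal.mul_le_mul_iff_right (measure_closedBall_pos μ 0 one_pos).ne'
    (isCompact_closedBall 0 1).measure_lt_top.ne).1 h2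

/-- The transversality estimate. -/
theorem transv [MeasurableSpace (Q →L[ℂ] P)] [BorelSpace (Q →L[ℂ] P)]
    (η : Measure (Q →L[ℂ] P)) [η.IsAddHaarMeasure] {v : P × Q} (hv : ‖v‖ = 1) {r : ℝ}
    (hr : 0 < r) :
    η {l | ‖l‖ < 1 / 2 ∧ ‖v.1 + l v.2‖ ≤ r}
      ≤ η (ball 0 2) * 2 ^ finrank ℝ P * ENNReal.ofReal r ^ (finrank ℝ P : ℝ) := by
  rcases max_choice ‖v.1‖ ‖v.2‖ with h | h
  · have h1 : ‖v.1‖ = 1 := by rw [← h, ← Prod.norm_def, hv]
    have h2 : ‖v.2‖ ≤ 1 := hv ▸ norm_snd_le v
    rcases lt_or_ge r (1 / 2) with h3 | h3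
    · have : {l : Q →L[ℂ] P | ‖l‖ < 1 / 2 ∧ ‖v.1 + l v.2‖ ≤ r} = ∅ := by
        refine eq_empty_of_forall_notMem fun l hl => ?_
        have h4 := norm_sub_le (v.1 + l v.2) (l v.2)
        rw [add_sub_cancel_right] at h4
        have h5 := l.le_opNorm v.2
        nlinarith [hl.1, hl.2, norm_nonneg l]
      rw [this, measure_empty]
      exact zero_le
    · refine le_trans (measure_mono fun l hl => mem_ball_zero_iff.2
        (by linarith [hl.1] : ‖l‖ < 2)) ?_
      rw [mul_assoc]
      refine le_mul_of_one_le_right' ?_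
      rw [ENNReal.rpow_natCast, ← mul_pow]
      refine one_le_pow₀ ?_
      rw [← ENNReal.ofReal_ofNat 2, ← ENNReal.ofReal_mul (by norm_num)]
      exact ENNReal.one_le_ofReal.2 (by linarith)
  · have h1 : ‖v.2‖ = 1 := by rw [← h, ← Prod.norm_def, hv]
    refine le_trans (measure_mono fun l hl => ?_) ((transv_aux η v.1 h1 hr).trans ?_)
    · exact ⟨by linarith [hl.1], hl.2⟩
    · exact mul_le_mul' (le_mul_of_one_le_right' (one_le_pow₀ (by norm_num))) le_rfl

theorem avg_pot [MeasurableSpace (Q →L[ℂ] P)] [BorelSpace (Q →L[ℂ] P)]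
    (η : Measure (Q →L[ℂ] P)) [η.IsAddHaarMeasure] {s : ℝ} (hs : 0 < s) {ε : ℝ} (hε : ε ≤ 1 / 2)
    (v : P × Q) :
    ∫⁻ l in ball 0 ε, ENNReal.ofReal ‖v.1 + l v.2‖ ^ (-s) ∂η
      ≤ η (ball 0 2) * 2 ^ finrank ℝ P * potC s (finrank ℝ P) * ENNReal.ofReal ‖v‖ ^ (-s) := by
  have : FiniteDimensional ℝ (Q →L[ℂ] P) := Module.Finite.trans ℂ _
  rcases eq_or_ne v 0 with rfl | hv
  · rw [norm_zero, ENNReal.ofReal_zero, ENNReal.zero_rpow_of_neg (by linarith), ENNReal.mul_top]
    · exact le_top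
    · exact mul_ne_zero (mul_ne_zero (measure_ball_pos η 0 two_pos).ne' (by simp))
        (potC_ne_zero _ _)
  have hn : 0 < ‖v‖ := norm_pos_iff.2 hv
  let u : P × Q := ((‖v‖⁻¹ : ℝ) : ℂ) • v
  have hu : ‖u‖ = 1 := by simp [u, norm_smul, hn.ne']
  have e : ∀ l : Q →L[ℂ] P, ENNReal.ofReal ‖v.1 + l v.2‖ ^ (-s)
      = ENNReal.ofReal ‖u.1 + l u.2‖ ^ (-s) * ENNReal.ofReal ‖v‖ ^ (-s) := fun l => by
    have : ‖v.1 + l v.2‖ = ‖u.1 + l u.2‖ * ‖v‖ := by
      simp only [u, Prod.smul_fst, Prod.smul_snd, map_smul, ← smul_add, norm_smul]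
      simp only [Complex.norm_real, norm_inv, norm_norm]
      field_simp
    rw [this, ENNReal.ofReal_mul (norm_nonneg _),
      ENNReal.mul_rpow_of_ne_top ENNReal.ofReal_ne_top ENNReal.ofReal_ne_top]
  simp only [e]
  have hm : Measurable fun l : Q →L[ℂ] P => ‖u.1 + l u.2‖ := Continuous.measurable (by fun_prop)
  rw [lintegral_mul_const _ (hm.ennreal_ofReal.pow_const _)]
  refine mul_le_mul' (pot_bound (t := finrank ℝ P) hm hs ?_ fun r hr => ?_) le_rfl
  · rw [Measure.restrict_apply_univ]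
    exact (measure_mono (ball_subset_ball (by linarith))).trans
      (le_mul_of_one_le_right' (one_le_pow₀ (by norm_num)))
  · rw [Measure.restrict_apply' isOpen_ball.measurableSet]
    refine le_trans (measure_mono fun l hl => ?_) (transv η hu hr)
    exact ⟨(mem_ball_zero_iff.1 hl.2).trans_le hε, hl.1⟩

variable [MeasurableSpace P] [BorelSpace P] [MeasurableSpace Q] [BorelSpace Q]

/-- A compact set of dimension more than `s` has a small tilted projection which is not null
in dimension `s`. -/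
theorem tilt {s t : ℝ} (hs : 0 < s) (hst : s < t) (hP : s < finrank ℝ P) {K : Set (P × Q)}
    (hK : IsCompact K) (h : μH[t] K ≠ 0) {ε : ℝ} (hε : 0 < ε) :
    ∃ l : Q →L[ℂ] P, ‖l‖ < ε ∧ μH[s] ((fun x : P × Q => x.1 + l x.2) '' K) ≠ 0 := by
  borelize (Q →L[ℂ] P)
  have : FiniteDimensional ℝ P := Module.Finite.trans ℂ P
  have : FiniteDimensional ℝ Q := Module.Finite.trans ℂ Q
  have : FiniteDimensional ℝ (Q →L[ℂ] P) := Module.Finite.trans ℂ _
  have : ProperSpace P := FiniteDimensional.proper ℝ P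
  have : ProperSpace Q := FiniteDimensional.proper ℝ Q
  have : ProperSpace (Q →L[ℂ] P) := FiniteDimensional.proper ℝ _
  let η : Measure (Q →L[ℂ] P) := Measure.addHaar
  obtain ⟨ν, C, hν, hνK, hC, hF⟩ := frostman (hs.trans hst) hK h
  let B : Set (Q →L[ℂ] P) := ball 0 (min ε (1 / 2))
  let G : (Q →L[ℂ] P) → P × Q → P × Q → ℝ≥0∞ := fun l x y =>
    ENNReal.ofReal ‖(y - x).1 + l (y - x).2‖ ^ (-s)
  have hG : Measurable fun p : ((Q →L[ℂ] P) × (P × Q)) × (P × Q) => G p.1.1 p.1.2 p.2 := by
    refine Measurable.pow_const (Continuous.measurable ?_) _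
    exact ENNReal.continuous_ofReal.comp (by fun_prop)
  let c := η (ball 0 2) * 2 ^ finrank ℝ P * potC s (finrank ℝ P)
  have hc : c ≠ ∞ := ENNReal.mul_ne_top (ENNReal.mul_ne_top measure_ball_lt_top.ne (by simp))
    (potC_ne_top hs.le hP)
  have h1 : ∫⁻ l in B, ∫⁻ x, ∫⁻ y, G l x y ∂ν ∂ν ∂η ≤ c * ((C + 1) * potC s t) := by
    rw [lintegral_lintegral_swap (Measurable.lintegral_prod_right' hG).aemeasurable]
    refine le_trans (lintegral_mono fun x => ?_) (by simp : ∫⁻ _, c * ((C + 1) * potC s t) ∂ν ≤ _)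
    rw [lintegral_lintegral_swap (f := fun l y => G l x y) (hG.comp (by fun_prop :
      Measurable fun p : (Q →L[ℂ] P) × (P × Q) => ((p.1, x), p.2))).aemeasurable]
    refine (lintegral_mono fun y => avg_pot η hs (min_le_right _ _) (y - x)).trans ?_
    rw [lintegral_const_mul _ (by fun_prop)]
    refine mul_le_mul' le_rfl ?_
    simp only [← dist_eq_norm]
    exact Fro.pot_le hs (fun x r hr => (hF x r hr).trans (mul_le_mul' le_self_add le_rfl))
      (by simp) x
  have h2 : ∀ᵐ l ∂η.restrict B, ∫⁻ x, ∫⁻ y, G l x y ∂ν ∂ν < ∞ :=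
    ae_lt_top (Measurable.lintegral_prod_right' (Measurable.lintegral_prod_right' hG))
      (ne_top_of_le_ne_top (ENNReal.mul_ne_top hc (ENNReal.mul_ne_top (by simpa using hC)
        (potC_ne_top hs.le hst))) h1)
  have hB : η B ≠ 0 := (measure_ball_pos η 0 (lt_min hε (by norm_num))).ne'
  obtain ⟨l, hl, hlt⟩ := Measure.exists_mem_of_measure_ne_zero_of_ae hB h2
  refine ⟨l, (mem_ball_zero_iff.1 hl).trans_le (min_le_left _ _), fun h0 => ?_⟩
  let π : P × Q → P := fun x => x.1 + l x.2
  have hπ : Continuous π := by fun_prop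
  have hm : Measurable fun p : P × P => ENNReal.ofReal (dist p.2 p.1) ^ (-s) := by fun_prop
  obtain ⟨S, C', hS, hS0, hC', hF'⟩ := exists_fro_of_energy (ν := ν.map π) hs
    (by rw [Ne, Measure.map_eq_zero_iff hπ.measurable.aemeasurable]; exact hν.ne_zero _) (by
      rw [lintegral_map (Measurable.lintegral_prod_right' hm) hπ.measurable]
      refine ne_of_eq_of_ne (lintegral_congr fun x => ?_) hlt.ne
      rw [lintegral_map (by fun_prop) hπ.measurable]
      refine lintegral_congr fun y => ?_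
      simp only [G, π, dist_eq_norm, Prod.fst_sub, Prod.snd_sub, map_sub]
      congr 3
      abel)
  have hKm : MeasurableSet (π '' K) := (hK.image hπ).isClosed.measurableSet
  have h3 := hF'.null hC' hs h0
  rw [Measure.restrict_apply hKm] at h3
  have h4 : ν.map π (π '' K)ᶜ = 0 := by
    rw [Measure.map_apply hπ.measurable hKm.compl]
    exact measure_mono_null (fun x hx hx' => hx (mem_image_of_mem π hx')) hνK
  refine hS0 (measure_mono_null (fun x hx => ?_) (measure_union_null h3 h4))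
  by_cases hx' : x ∈ π '' K
  · exact Or.inl ⟨hx', hx⟩
  · exact Or.inr hx'

/-- A locally closed set is null in dimension `t` when the small tilted projections of its compact
parts are null in a dimension `s < t`. -/
theorem null_of_tilts {s t : ℝ} (hs : 0 < s) (hst : s < t) (hP : s < finrank ℝ P)
    {D W : Set (P × Q)} (hW : IsOpen W)
    (h : ∀ x ∈ D \ W, ∃ r > 0, ∃ ε > 0, ∀ l : Q →L[ℂ] P, ‖l‖ < ε →
      μH[s] ((fun x : P × Q => x.1 + l x.2) '' (ball x r \ W)) = 0) : μH[t] (D \ W) = 0 := by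
  have : FiniteDimensional ℝ P := Module.Finite.trans ℂ P
  have : FiniteDimensional ℝ Q := Module.Finite.trans ℂ Q
  have : ProperSpace P := FiniteDimensional.proper ℝ P
  have : ProperSpace Q := FiniteDimensional.proper ℝ Q
  refine measure_null_of_locally_null _ fun x hx => ?_
  obtain ⟨r, hr, ε, hε, h1⟩ := h x hx
  refine ⟨closedBall x (r / 2) \ W, ?_, ?_⟩
  · refine mem_nhdsWithin.2 ⟨ball x (r / 2), isOpen_ball, mem_ball_self (by linarith), ?_⟩
    exact fun y hy => ⟨ball_subset_closedBall hy.1, hy.2.2⟩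
  · by_contra h0
    obtain ⟨l, hl, h2⟩ := tilt hs hst hP ((isCompact_closedBall x (r / 2)).diff hW) h0 hε
    exact h2 (measure_mono_null (image_mono (sdiff_subset_sdiff_left
      (closedBall_subset_ball (by linarith)))) (h1 l hl))

end Pool.Agent.Lib.MP_823829_an.GM
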